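import Pool.Agent.Helper95.RP.St

/-!
# Project RP, module RC: rounding with small errors in the classes
-/

set_option autoImplicit false

namespace Pool.Agent.Helper72.RP

open Pool.Agent.Helper95.RP Finset
open scoped Classical

/-- **RC.** -/
theorem hRC : RC := by
  intro hRO α β A p x K hK
  have hmaps : ∀ u ∈ A, p u ∈ A.image p := fun u hu => mem_image_of_mem p hu
  obtain ⟨L, hL1, hL2⟩ := hRO β (A.image p) (fun j => ∑ u ∈ A.filter (fun u => p u = j), x u) K
    (by rw [sum_fiberwise_of_maps_to hmaps]; exact hK)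
  have hM : ∀ j, ∃ m : α → ℤ, j ∈ A.image p →
      (∀ u ∈ A.filter (fun u => p u = j), |(m u : ℝ) - x u| < 1) ∧
        ∑ u ∈ A.filter (fun u => p u = j), m u = L j := by
    intro j
    by_cases hj : j ∈ A.image p
    · obtain ⟨m, h1, h2⟩ := hRO α (A.filter (fun u => p u = j)) x (L j) (hL1 j hj)
      exact ⟨m, fun _ => ⟨h1, h2⟩⟩
    · exact ⟨fun _ => 0, fun h => absurd h hj⟩
  choose m hm using hM
  have hcl : ∀ j ∈ A.image p, ∑ u ∈ A.filter (fun u => p u = j), m (p u) u = L j := by
    intro j hj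
    rw [← (hm j hj).2]
    refine sum_congr rfl fun u hu => ?_
    rw [(mem_filter.1 hu).2]
  refine ⟨fun u => m (p u) u, fun u hu => ?_, ?_, fun j => ?_⟩
  · exact (hm (p u) (hmaps u hu)).1 u (mem_filter.2 ⟨hu, rfl⟩)
  · rw [← sum_fiberwise_of_maps_to hmaps (fun u => m (p u) u), ← hL2]
    exact sum_congr rfl hcl
  · by_cases hj : j ∈ A.image p
    · rw [sum_sub_distrib, ← Int.cast_sum, hcl j hj]
      exact hL1 j hj
    · have : A.filter (fun u => p u = j) = ∅ := by
        rw [filter_eq_empty_iff]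
        intro u hu h
        exact hj (h ▸ hmaps u hu)
      rw [this, sum_empty, abs_zero]
      exact one_pos

end Pool.Agent.Helper72.RP
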